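import Mathlib

set_option autoImplicit false
open Set Filter Topology MeasureTheory Metric intervalIntegral

namespace Pool.Agent.H.MP_1759d0

theorem proper {X : Type*} [PseudoMetricSpace X] [CompleteSpace X] [LocallyCompactSpace X] (O : X)
    (mid : ∀ x, ∀ r ≥ 0, ∀ ε > 0, ∃ y, dist y O ≤ r ∧ dist x y ≤ max 0 (dist x O - r) + ε)
    (R : ℝ) : IsCompact (closedBall O R) := by
  by_contra hR
  let A := {r | IsCompact (closedBall O r)}
  have low : ∀ r ∈ A, ∀ s ≤ r, s ∈ A := fun r hr s hs =>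
    hr.of_isClosed_subset isClosed_closedBall (closedBall_subset_closedBall hs)
  have bd : BddAbove A := ⟨R, fun r hr => not_lt.1 fun h => hR (low r hr R h.le)⟩
  obtain ⟨r₀, h₀, hr₀⟩ := exists_isCompact_closedBall O
  have T0 : 0 < sSup A := h₀.trans_le (le_csSup bd hr₀)
  have hT : sSup A ∈ A := by
    refine isCompact_iff_totallyBounded_isComplete.2 ⟨Metric.totallyBounded_iff.2 fun ε hε => ?_,
      isClosed_closedBall.isComplete⟩
    obtain ⟨r, hr, hr'⟩ := exists_lt_of_lt_csSup ⟨r₀, hr₀⟩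
      (max_lt T0 (sub_lt_self (sSup A) (show 0 < ε / 4 by positivity)))
    obtain ⟨t, ht, hc⟩ := Metric.totallyBounded_iff.1 hr.totallyBounded (ε / 4) (by positivity)
    refine ⟨t, ht, fun x hx => ?_⟩
    obtain ⟨y, hy, hxy⟩ := mid x r ((le_max_left _ _).trans hr'.le) (ε / 4) (by positivity)
    obtain ⟨z, hz, hyz⟩ := mem_iUnion₂.1 (hc hy)
    refine mem_iUnion₂.2 ⟨z, hz, ?_⟩
    have : max 0 (dist x O - r) ≤ ε / 4 :=
      max_le (by positivity) (by linarith [mem_closedBall.1 hx, (le_max_right _ _).trans_lt hr'])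
    rw [mem_ball] at *
    linarith [dist_triangle x y z]
  obtain ⟨δ, hδ, hc⟩ := hT.exists_isCompact_cthickening
  have : sSup A + δ / 2 ∈ A := hc.of_isClosed_subset isClosed_closedBall fun x hx => by
    obtain ⟨y, hy, hxy⟩ := mid x _ T0.le (δ / 2) (by positivity)
    have : max 0 (dist x O - sSup A) ≤ δ / 2 :=
      max_le (by positivity) (by linarith [mem_closedBall.1 hx])
    exact mem_cthickening_of_dist_le x y _ _ hy (by linarith)
  linarith [le_csSup bd this]

/-- speed of a curve -/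
noncomputable def sp (w : ℂ → ℝ) (γ : ℝ → ℂ) (t : ℝ) : ℝ := w (γ t) * ‖deriv γ t‖

/-- distance of the conformal metric with density `w` -/
noncomputable def dst (w : ℂ → ℝ) (p q : ℂ) : ℝ :=
  sInf {L | ∃ γ : ℝ → ℂ, ContDiff ℝ 1 γ ∧ γ 0 = p ∧ γ 1 = q ∧ L = ∫ t in (0 : ℝ)..1, sp w γ t}

variable {w : ℂ → ℝ} (hw : Continuous w) (h0 : ∀ z, 0 < w z)

theorem seg (p q : ℂ) : ContDiff ℝ 1 (fun t : ℝ => p + t • (q - p)) ∧
    ∀ t, deriv (fun t : ℝ => p + t • (q - p)) t = q - p :=
  ⟨by fun_prop, fun t => by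
    simpa using (((hasDerivAt_id' t).smul_const (q - p)).const_add p).deriv⟩

include hw in
theorem spc {γ : ℝ → ℂ} (h : ContDiff ℝ 1 γ) : Continuous (sp w γ) :=
  (hw.comp h.continuous).mul (h.continuous_deriv le_rfl).norm

include h0 in
theorem sp0 (γ : ℝ → ℂ) (t : ℝ) : 0 ≤ sp w γ t := mul_nonneg (h0 _).le (norm_nonneg _)

include h0 in
theorem dle {γ : ℝ → ℂ} (h : ContDiff ℝ 1 γ) : dst w (γ 0) (γ 1) ≤ ∫ t in (0 : ℝ)..1, sp w γ t :=
  csInf_le ⟨0, by
    rintro _ ⟨γ, -, -, -, rfl⟩
    exact integral_nonneg zero_le_one fun t _ => sp0 h0 γ t⟩ ⟨γ, h, rfl, rfl, rfl⟩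

theorem dex (w : ℂ → ℝ) (p q : ℂ) {ε : ℝ} (hε : 0 < ε) : ∃ γ : ℝ → ℂ, ContDiff ℝ 1 γ ∧ γ 0 = p ∧
    γ 1 = q ∧ ∫ t in (0 : ℝ)..1, sp w γ t < dst w p q + ε := by
  obtain ⟨_, ⟨γ, a, b, c, rfl⟩, h⟩ := exists_lt_of_csInf_lt
    (by exact ⟨_, _, (seg p q).1, by simp, by simp, rfl⟩) (lt_add_of_pos_right (dst w p q) hε)
  exact ⟨γ, a, b, c, h⟩

include h0 in
theorem d0 (p q : ℂ) : 0 ≤ dst w p q := Real.sInf_nonneg (by
  rintro _ ⟨γ, -, -, -, rfl⟩
  exact integral_nonneg zero_le_one fun t _ => sp0 h0 γ t)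

include h0 in
theorem dres {γ : ℝ → ℂ} (h : ContDiff ℝ 1 γ) (s t : ℝ) :
    dst w (γ s) (γ t) ≤ |∫ x in s..t, sp w γ x| := by
  have a := dle h0 (γ := fun x => γ (s + (t - s) * x)) (by fun_prop)
  have b := mul_integral_comp_add_mul (f := sp w γ) (a := 0) (b := 1) (t - s) s
  have c : ∀ x, sp w (fun x => γ (s + (t - s) * x)) x = |t - s| * sp w γ (s + (t - s) * x) :=
    fun x => by
      have := ((h.differentiable one_ne_zero _).hasDerivAt.scomp x
        (((hasDerivAt_id' x).const_mul (t - s)).const_add s)).deriv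
      simp only [sp, Function.comp_def] at this ⊢
      rw [this, norm_smul]
      simp only [mul_one, Real.norm_eq_abs]
      ring
  simp only [mul_zero, add_zero, mul_one, add_sub_cancel, c] at a b
  rw [← b, abs_mul, abs_of_nonneg (integral_nonneg zero_le_one fun x _ => sp0 h0 γ _),
    ← intervalIntegral.integral_const_mul]
  exact a

include h0 in
theorem dself (p : ℂ) : dst w p p = 0 :=
  le_antisymm (by simpa using dres h0 (γ := fun _ => p) contDiff_const 0 0) (d0 h0 _ _)

include h0 in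
theorem dcomm (p q : ℂ) : dst w p q = dst w q p := by
  have : ∀ p q, dst w p q ≤ dst w q p := fun p q => le_of_forall_pos_lt_add fun ε hε => by
    obtain ⟨γ, a, rfl, rfl, h⟩ := dex w q p hε
    refine (dres h0 a 1 0).trans_lt ?_
    rwa [integral_symm, abs_neg, abs_of_nonneg (integral_nonneg zero_le_one fun x _ => sp0 h0 γ _)]
  exact le_antisymm (this _ _) (this _ _)

include hw h0 in
theorem dtri (p q r : ℂ) : dst w p r ≤ dst w p q + dst w q r := by
  refine le_of_forall_pos_lt_add fun ε hε => ?_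
  obtain ⟨α, a, rfl, hq, ha⟩ := dex w p q (half_pos hε)
  obtain ⟨β, b, hq', rfl, hb⟩ := dex w q r (half_pos hε)
  let S := Real.smoothTransition
  have hS : ContDiff ℝ 1 S := Real.smoothTransition.contDiff
  have S0 : ∀ x, 0 ≤ deriv S x := fun x => Real.smoothTransition.monotone.deriv_nonneg
  have dS := fun (c t : ℝ) => (hS.differentiable one_ne_zero _).hasDerivAt.comp t
    (((hasDerivAt_id' t).const_mul 2).sub_const c)
  have key : ∀ (γ : ℝ → ℂ) (c : ℝ), ContDiff ℝ 1 γ → 0 ≤ c → c ≤ 1 → ∫ t in (0 : ℝ)..1,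
      sp w γ (S (2 * t - c)) * (deriv S (2 * t - c) * (2 * 1)) = ∫ t in (0 : ℝ)..1, sp w γ t :=
    fun γ c hγ c0 c1 => by
      have := integral_comp_mul_deriv (a := 0) (b := 1) (fun t _ => dS c t)
        (by have := hS.continuous_deriv le_rfl; fun_prop) (spc hw hγ)
      simp only [Function.comp_def] at this
      rw [this, show S (2 * 0 - c) = 0 from Real.smoothTransition.zero_of_nonpos (by linarith),
        show S (2 * 1 - c) = 1 from Real.smoothTransition.one_of_one_le (by linarith)]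
  have h := dle h0 (γ := fun t => α (S (2 * t - 0)) + β (S (2 * t - 1)) - q) (by fun_prop)
  have e : ∀ t, sp w (fun t => α (S (2 * t - 0)) + β (S (2 * t - 1)) - q) t =
      sp w α (S (2 * t - 0)) * (deriv S (2 * t - 0) * (2 * 1)) +
      sp w β (S (2 * t - 1)) * (deriv S (2 * t - 1) * (2 * 1)) := fun t => by
    have := ((((a.differentiable one_ne_zero _).hasDerivAt.scomp t (dS 0 t)).fun_add
      ((b.differentiable one_ne_zero _).hasDerivAt.scomp t (dS 1 t))).sub_const q).deriv
    simp only [sp, Function.comp_def] at this ⊢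
    rw [this]
    rcases le_total t (1 / 2) with ht | ht
    · have u : S (2 * t - 1) = 0 := Real.smoothTransition.zero_of_nonpos (by linarith)
      have v : deriv S (2 * t - 1) = 0 := IsLocalMin.deriv_eq_zero (.of_forall fun x => by
        rw [u]; exact Real.smoothTransition.nonneg _)
      simp [u, v, hq', abs_of_nonneg (S0 _)]
      ring
    · have u : S (2 * t - 0) = 1 := Real.smoothTransition.one_of_one_le (by linarith)
      have v : deriv S (2 * t - 0) = 0 := IsLocalMax.deriv_eq_zero (.of_forall fun x => by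
        rw [u]; exact Real.smoothTransition.le_one _)
      rw [u, v]
      simp [hq, abs_of_nonneg (S0 _)]
      ring
  have c1 := hS.continuous_deriv le_rfl
  have c2 := spc hw a
  have c3 := spc hw b
  have c4 := hS.continuous
  simp only [e] at h
  rw [integral_add (Continuous.intervalIntegrable (by fun_prop) _ _)
    (Continuous.intervalIntegrable (by fun_prop) _ _), key α 0 a le_rfl zero_le_one,
    key β 1 b zero_le_one le_rfl,
    show S (2 * 0 - 0) = 0 from Real.smoothTransition.zero_of_nonpos (by linarith),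
    show S (2 * 0 - 1) = 0 from Real.smoothTransition.zero_of_nonpos (by linarith),
    show S (2 * 1 - 0) = 1 from Real.smoothTransition.one_of_one_le (by linarith),
    show S (2 * 1 - 1) = 1 from Real.smoothTransition.one_of_one_le (by linarith), hq, hq',
    add_sub_cancel_right, add_sub_cancel_left] at h
  linarith

include hw h0 in
theorem dup {s : Set ℂ} (hs : Convex ℝ s) {M : ℝ} (hM : ∀ z ∈ s, w z ≤ M) {p q : ℂ} (hp : p ∈ s)
    (hq : q ∈ s) : dst w p q ≤ M * ‖q - p‖ := by
  have := dle h0 (seg p q).1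
  simp only [zero_smul, add_zero, one_smul, add_sub_cancel] at this
  refine this.trans ?_
  have := integral_mono_on (μ := volume) zero_le_one ((spc hw (seg p q).1).intervalIntegrable _ _)
    (intervalIntegrable_const (c := M * ‖q - p‖)) fun t ht => by
      rw [sp, (seg p q).2]
      gcongr
      exact hM _ (hs.add_smul_sub_mem hp hq ht)
  simpa using this

include hw in
theorem dlow {φ : ℂ → ℝ} (hφ : ContDiff ℝ 1 φ) {C : ℝ} (C0 : 0 < C)
    (hC : ∀ z, ‖fderiv ℝ φ z‖ ≤ C * w z) (p q : ℂ) : φ q - φ p ≤ C * dst w p q := by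
  refine le_of_forall_pos_lt_add fun ε hε => ?_
  obtain ⟨γ, a, rfl, rfl, h⟩ := dex w p q (div_pos hε C0)
  have d := fun t => (hφ.differentiable one_ne_zero _).hasFDerivAt.comp_hasDerivAt t
    (a.differentiable one_ne_zero t).hasDerivAt
  have c : Continuous fun t => fderiv ℝ φ (γ t) (deriv γ t) :=
    ((hφ.continuous_fderiv one_ne_zero).comp a.continuous).clm_apply (a.continuous_deriv le_rfl)
  have e := integral_eq_sub_of_hasDerivAt (a := 0) (b := 1) (fun t _ => d t) (c.intervalIntegrable _ _)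
  have := integral_mono_on (μ := volume) zero_le_one (c.intervalIntegrable _ _)
    (((spc hw a).const_mul C).intervalIntegrable _ _) fun t _ => by
      refine (le_abs_self _).trans (((fderiv ℝ φ (γ t)).le_opNorm _).trans ?_)
      rw [sp, ← mul_assoc]
      gcongr
      exact hC _
  rw [intervalIntegral.integral_const_mul, e] at this
  have h2 := mul_lt_mul_of_pos_left h C0
  rw [mul_add, mul_div_cancel₀ _ C0.ne'] at h2
  exact this.trans_lt h2

include hw h0 in
theorem dtop (s : Set ℂ) : IsOpen s ↔ ∀ x ∈ s, ∃ ε > 0, ∀ y, dst w x y < ε → y ∈ s := by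
  refine ⟨fun hs x hx => ?_, fun h => Metric.isOpen_iff.2 fun x hx => ?_⟩
  · obtain ⟨r, r0, hr⟩ := Metric.isOpen_iff.1 hs x hx
    let φ : ContDiffBump x := ⟨r / 2, r, by positivity, by linarith⟩
    have hφ : ContDiff ℝ 1 φ := φ.contDiff
    obtain ⟨C, hC⟩ := ((hφ.continuous_fderiv one_ne_zero).norm.div hw
      fun z => (h0 z).ne').bounded_above_of_compact_support
      (((φ.hasCompactSupport.fderiv ℝ).norm.mul_right (f' := fun z => (w z)⁻¹)).mono' (by
        intro z hz
        exact subset_closure (by simpa [div_eq_mul_inv] using hz)))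
    have C0 : 0 < C + 1 := by linarith [(norm_nonneg _).trans (hC 0)]
    refine ⟨1 / (C + 1), by positivity, fun y hy => hr (by_contra fun hn => ?_)⟩
    have := dlow hw hφ C0 (fun z => by
      have := (div_le_iff₀ (h0 z)).1 ((le_abs_self _).trans (hC z))
      nlinarith [h0 z]) y x
    rw [φ.one_of_mem_closedBall (mem_closedBall_self φ.rIn_pos.le),
      φ.zero_of_le_dist (not_lt.1 hn), dcomm h0] at this
    rw [lt_div_iff₀ C0] at hy
    linarith
  · obtain ⟨ε, ε0, hε⟩ := h x hx
    obtain ⟨M, hM⟩ := (isCompact_closedBall x 1).exists_bound_of_continuousOn hw.continuousOn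
    have M0 : 0 < M := (h0 x).trans_le ((le_abs_self _).trans (hM x (by simp)))
    refine ⟨min 1 (ε / M), by positivity, fun y hy => hε y ?_⟩
    rw [mem_ball, lt_min_iff, lt_div_iff₀ M0] at hy
    refine (dup hw h0 (convex_closedBall x 1) (fun z hz => (le_abs_self _).trans (hM z hz))
      (by simp) hy.1.le).trans_lt ?_
    rw [← dist_eq_norm]
    linarith [hy.2]

include hw h0 in
theorem dcont (p : ℂ) : Continuous (dst w p) := by
  refine continuous_iff_continuousAt.2 fun x => Metric.tendsto_nhds.2 fun ε hε => ?_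
  have : IsOpen {y | dst w x y < ε} := (dtop hw h0 _).2 fun y hy =>
    ⟨_, sub_pos.2 hy, fun z hz => by
      change dst w x z < ε
      linarith [dtri hw h0 x y z]⟩
  filter_upwards [this.mem_nhds (show dst w x x < ε by rwa [dself h0])] with y hy
  rw [Real.dist_eq, abs_lt]
  change dst w x y < ε at hy
  constructor <;> linarith [dtri hw h0 p x y, dtri hw h0 p y x, dcomm h0 x y]

/-- copy of the plane -/
def M : Type := ℂ

include hw h0 in
theorem dprop (hc : ∀ x : ℕ → ℂ, (∀ ε > 0, ∃ N, ∀ m ≥ N, ∀ n ≥ N, dst w (x m) (x n) < ε) →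
    ∃ a, Tendsto (fun n => dst w (x n) a) atTop (𝓝 0)) (R : ℝ) : IsCompact {z | dst w z 0 ≤ R} := by
  let T : TopologicalSpace M := inferInstanceAs (TopologicalSpace ℂ)
  have L : LocallyCompactSpace M := inferInstanceAs (LocallyCompactSpace ℂ)
  let I : PseudoMetricSpace M :=
    .ofDistTopology (dst w) (dself h0) (dcomm h0) (dtri hw h0) (dtop hw h0)
  refine @proper M I (Metric.complete_of_cauchySeq_tendsto fun x hx => ?_) L (0 : ℂ)
    (fun (x : ℂ) r r0 ε ε0 => ?_) R
  · obtain ⟨a, ha⟩ := hc x (Metric.cauchySeq_iff.1 hx)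
    exact ⟨a, tendsto_iff_dist_tendsto_zero.2 ha⟩
  change ∃ y, dst w y 0 ≤ r ∧ dst w x y ≤ max 0 (dst w x 0 - r) + ε
  rcases le_total (dst w x 0) r with h | h
  · exact ⟨x, h, by rw [dself h0]; positivity⟩
  obtain ⟨γ, a, h1, h2, h3⟩ := dex w x 0 ε0
  have c := spc hw a
  obtain ⟨t, ht, e⟩ := intermediate_value_Icc' zero_le_one
    (f := fun t => ∫ x in t..1, sp w γ x) (by
      simp only [integral_symm 1]
      exact (continuous_primitive (fun _ _ => c.intervalIntegrable _ _) 1).neg.continuousOn)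
    (show r ∈ _ from ⟨by simpa using r0, h.trans (by simpa [h1, h2] using dle h0 a)⟩)
  have u := dres h0 a t 1
  have v := dres h0 a 0 t
  rw [abs_of_nonneg (integral_nonneg ht.2 fun x _ => sp0 h0 γ _), h2] at u
  rw [abs_of_nonneg (integral_nonneg ht.1 fun x _ => sp0 h0 γ _), h1] at v
  have := integral_add_adjacent_intervals (μ := volume) (c.intervalIntegrable 0 t) (c.intervalIntegrable t 1)
  exact ⟨γ t, u.trans e.le, by linarith [le_max_right 0 (dst w x 0 - r)]⟩

end Pool.Agent.H.MP_1759d0
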