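import Pool.Agent.H.MP_1759d0.A

set_option autoImplicit false
open Set Filter Topology MeasureTheory Metric intervalIntegral Complex

namespace Pool.Agent.H.MP_1759d0

theorem tay {f : ℂ → ℝ} {f' : ℂ → ℂ →L[ℝ] ℝ} {f'' : ℂ → ℂ →L[ℝ] ℂ →L[ℝ] ℝ}
    (h1 : ∀ y, HasFDerivAt f (f' y) y) (h2 : ∀ y, HasFDerivAt f' (f'' y) y) (hc : Continuous f'')
    (ρ : ℝ) {ε : ℝ} (hε : 0 < ε) : ∃ δ > 0, ∀ z : ℂ, ‖z‖ ≤ ρ → ∀ η : ℂ, ‖η‖ < δ →
      |f (z + η) - f z - f' z η - f'' z η η / 2| ≤ ε * ‖η‖ ^ 2 := by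
  obtain ⟨δ, hδ, hu⟩ := (Metric.uniformContinuousOn_iff (f := f'')).1
    ((isCompact_closedBall (0 : ℂ) (ρ + 1)).uniformContinuousOn_of_continuous hc.continuousOn) ε hε
  refine ⟨min δ 1, by positivity, fun z hz η hη => ?_⟩
  have a : ∀ y ∈ ball z (min δ 1), ‖f' y - f' z - f'' z (y - z)‖ ≤ ε * ‖y - z‖ := fun y hy =>
    (convex_ball z _).norm_image_sub_le_of_norm_hasFDerivWithin_le'
      (fun x _ => (h2 x).hasFDerivWithinAt) (fun x hx => by
        rw [mem_ball, lt_min_iff] at hx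
        rw [← dist_eq_norm]
        refine (hu x ?_ z (by simp; linarith) hx.1).le
        rw [mem_closedBall]
        linarith [dist_triangle x z 0, dist_zero_right z, hx.2])
      (mem_ball_self (by positivity)) hy
  have l := fun t : ℝ => ((hasDerivAt_id' t).smul_const η).const_add z
  have := norm_image_sub_le_of_norm_deriv_le_segment_01' (C := ε * ‖η‖ ^ 2) (fun t _ =>
    ((((h1 _).comp_hasDerivAt t (l t)).fun_sub ((hasDerivAt_id' t).mul_const (f' z η))).fun_sub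
      ((((hasDerivAt_id' t).fun_pow 2).div_const 2).mul_const (f'' z η η))).hasDerivWithinAt)
    fun t ht => by
      have n : ‖t • η‖ ≤ ‖η‖ := by
        rw [norm_smul, Real.norm_of_nonneg ht.1]
        exact mul_le_of_le_one_left (norm_nonneg _) ht.2.le
      have b := a (z + t • η) (by simpa [mem_ball, dist_eq_norm] using n.trans_lt hη)
      rw [add_sub_cancel_left] at b
      have c := (f' (z + t • η) - f' z - f'' z (t • η)).le_opNorm η
      refine (le_of_eq ?_).trans (c.trans ?_)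
      · congr 1
        simp only [sub_apply, map_smul, smul_apply]
        simp
      · rw [sq, ← mul_assoc]
        gcongr
        exact b.trans (by gcongr)
  refine (le_of_eq ?_).trans this
  simp only [Function.comp_def, Real.norm_eq_abs]
  congr 1
  simp
  ring

/-- five point difference -/
noncomputable def D (f : ℂ → ℝ) (p : ℂ) (h : ℝ) : ℝ :=
  f (p + h) + f (p + -h) + f (p + h * I) + f (p + -(h * I)) - 4 * f p

/-- trace of the second derivative -/
noncomputable def L (v : ℂ → ℝ) (z : ℂ) : ℝ :=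
  fderiv ℝ (fderiv ℝ v) z 1 1 + fderiv ℝ (fderiv ℝ v) z I I

theorem bil (B : ℂ →L[ℝ] ℂ →L[ℝ] ℝ) (a : ℂ) :
    B a a + B (a * I) (a * I) = normSq a * (B 1 1 + B I I) := by
  have e1 : a = a.re • (1 : ℂ) + a.im • I := by simp
  have e2 : a * I = (-a.im) • (1 : ℂ) + a.re • I := by apply Complex.ext <;> simp
  rw [e2, normSq_apply]
  conv_lhs => enter [1]; rw [e1]
  simp only [map_add, map_smul, add_apply, smul_apply,
    smul_eq_mul]
  ring

theorem lin (B : ℂ →L[ℝ] ℝ) (a : ℂ) : B a = (((B 1 : ℂ) - B I * I) * a).re := by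
  have e1 : a = a.re • (1 : ℂ) + a.im • I := by simp
  conv_lhs => rw [e1]
  simp only [map_add, map_smul, smul_eq_mul]
  simp
  ring

variable {v : ℂ → ℝ} (hv : ContDiff ℝ 2 v)

include hv in
theorem v12 : (∀ y, HasFDerivAt v (fderiv ℝ v y) y) ∧
    (∀ y, HasFDerivAt (fderiv ℝ v) (fderiv ℝ (fderiv ℝ v) y) y) ∧ Continuous (fderiv ℝ v) ∧
    Continuous (fderiv ℝ (fderiv ℝ v)) :=
  have : ContDiff ℝ 1 (fderiv ℝ v) := hv.fderiv_right (by norm_num)
  ⟨fun y => (hv.differentiable two_ne_zero y).hasFDerivAt,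
    fun y => (this.differentiable one_ne_zero y).hasFDerivAt, this.continuous,
    this.continuous_fderiv one_ne_zero⟩

theorem small {δ : ℝ} (hδ : 0 < δ) : ∀ᶠ h in 𝓝[>] (0 : ℝ), 0 < h ∧ h < δ :=
  Ioo_mem_nhdsGT hδ

include hv in
theorem dv (p : ℂ) {ε : ℝ} (hε : 0 < ε) :
    ∀ᶠ h in 𝓝[>] (0 : ℝ), |D v p h - h ^ 2 * L v p| ≤ ε * h ^ 2 := by
  obtain ⟨h1, h2, -, hc⟩ := v12 hv
  obtain ⟨δ, hδ, H⟩ := tay h1 h2 hc ‖p‖ (show 0 < ε / 4 by positivity)
  filter_upwards [small hδ] with h ⟨h0, hh⟩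
  have a := abs_le.1 (H p le_rfl h (by simpa [abs_of_pos h0]))
  have b := abs_le.1 (H p le_rfl (-h) (by simpa [abs_of_pos h0]))
  have c := abs_le.1 (H p le_rfl (h * I) (by simpa [abs_of_pos h0]))
  have d := abs_le.1 (H p le_rfl (-(h * I)) (by simpa [abs_of_pos h0]))
  have e := bil (fderiv ℝ (fderiv ℝ v) p) h
  simp only [map_neg, neg_apply, neg_neg, norm_neg, norm_mul, norm_I, mul_one,
    norm_real, Real.norm_eq_abs, sq_abs, normSq_ofReal, ← sq] at a b c d e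
  rw [D, L, abs_le]
  constructor <;> linarith [a.1, a.2, b.1, b.2, c.1, c.2, d.1, d.2]

theorem alg {l p1 p2 q1 q2 e h F1 F2 F3 F4 : ℝ} (ν a : ℂ)
    (h1 : F1 ≤ l + h * p1 + h ^ 2 * q1 / 2 + e * h ^ 2)
    (h2 : F2 ≤ l - h * p1 + h ^ 2 * q1 / 2 + e * h ^ 2)
    (h3 : F3 ≤ l + h * p2 + h ^ 2 * q2 / 2 + e * h ^ 2)
    (h4 : F4 ≤ l - h * p2 + h ^ 2 * q2 / 2 + e * h ^ 2) :
    F1 * normSq (ν + a * h) + F2 * normSq (ν + a * -h) + F3 * normSq (ν + a * (h * I)) +
      F4 * normSq (ν + a * -(h * I)) ≤ 4 * l * normSq ν + h ^ 2 * (4 * l * normSq a +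
        (q1 + q2) * normSq ν + 4 * (p1 * (ν.re * a.re + ν.im * a.im) +
          p2 * (ν.im * a.re - ν.re * a.im))) + h ^ 4 * (q1 + q2) * normSq a +
        4 * e * h ^ 2 * (normSq ν + h ^ 2 * normSq a) := by
  refine (add_le_add (add_le_add (add_le_add (mul_le_mul_of_nonneg_right h1 (normSq_nonneg _))
    (mul_le_mul_of_nonneg_right h2 (normSq_nonneg _)))
    (mul_le_mul_of_nonneg_right h3 (normSq_nonneg _)))
    (mul_le_mul_of_nonneg_right h4 (normSq_nonneg _))).trans (le_of_eq ?_)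
  simp [normSq_apply]
  ring

theorem alg2 {l lp Q c e h σ β b M N F1 F2 F3 F4 q1 q2 : ℝ} (ν g E a a' : ℂ) (ha : a = b * E)
    (ha' : a' = β * σ * E - g * ν / 2 * a)
    (h1 : F1 ≤ l + h * (l * (g * a).re) + h ^ 2 * q1 / 2 + e * normSq a * h ^ 2)
    (h2 : F2 ≤ l - h * (l * (g * a).re) + h ^ 2 * q1 / 2 + e * normSq a * h ^ 2)
    (h3 : F3 ≤ l + h * (l * (g * (a * I)).re) + h ^ 2 * q2 / 2 + e * normSq a * h ^ 2)
    (h4 : F4 ≤ l - h * (l * (g * (a * I)).re) + h ^ 2 * q2 / 2 + e * normSq a * h ^ 2)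
    (hq : q1 + q2 = l * normSq a * (Q + normSq g)) (l0 : 0 < l) (hE : l * normSq E = lp)
    (b0 : 0 ≤ b) (b1 : b ≤ 1) (β0 : 0 ≤ β) (β1 : β ≤ 1) (c0 : 0 ≤ c) (hQ : Q ≤ 2 * c * l)
    (hν : l * normSq ν ≤ σ ^ 2) (M1 : l⁻¹ ≤ M) (M2 : 2 * c * l + normSq g ≤ M) (e0 : 0 < e)
    (he : h ^ 2 ≤ e) (h1' : h ^ 2 ≤ 1) (hN : N = (lp + 1) * M * (2 + M ^ 2)) :
    F1 * normSq (ν + a' * h) + F2 * normSq (ν + a' * -h) + F3 * normSq (ν + a' * (h * I)) +
      F4 * normSq (ν + a' * -(h * I)) ≤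
      σ ^ 2 * (4 + h ^ 2 * (2 * c * lp + 4 * lp * β ^ 2 + 9 * e * N ^ 2)) := by
  refine (alg ν a' h1 h2 h3 h4).trans ?_
  clear h1 h2 h3 h4
  have key : 4 * l * normSq a' + (q1 + q2) * normSq ν + 4 * (l * (g * a).re *
      (ν.re * a'.re + ν.im * a'.im) + l * (g * (a * I)).re * (ν.im * a'.re - ν.re * a'.im)) =
      (l * normSq a) * normSq ν * Q + 4 * (l * normSq E) * β ^ 2 * σ ^ 2 := by
    have : 4 * normSq E * β ^ 2 * σ ^ 2 = normSq (2 * a' + g * ν * a) := by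
      rw [ha', show 2 * (β * σ * E - g * ν / 2 * a) + g * ν * a = (2 * β * σ : ℝ) * E by
        push_cast; ring, normSq_mul, normSq_ofReal]
      ring
    rw [show 4 * (l * normSq E) * β ^ 2 * σ ^ 2 = l * (4 * normSq E * β ^ 2 * σ ^ 2) by ring, this, hq]
    simp [normSq_apply]
    ring
  have E0 := normSq_nonneg E
  have g0 := normSq_nonneg g
  have ν0 := normSq_nonneg ν
  have a0 := normSq_nonneg a
  have a'0 := normSq_nonneg a'
  have M0 : 0 < M := (inv_pos.2 l0).trans_le M1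
  have lp0 : 0 ≤ lp := by rw [← hE]; positivity
  have aE : normSq a ≤ normSq E := by
    rw [ha, normSq_mul, normSq_ofReal]
    exact mul_le_of_le_one_left E0 (mul_le_one₀ b1 b0 b1)
  have la : l * normSq a ≤ lp := by rw [← hE]; gcongr
  have EM : normSq E ≤ lp * M := by
    calc normSq E = lp * l⁻¹ := by rw [← hE]; field_simp
      _ ≤ _ := by gcongr
  have νM : normSq ν ≤ M * σ ^ 2 := by
    calc normSq ν = l⁻¹ * (l * normSq ν) := by field_simp
      _ ≤ _ := by gcongr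
  have gM : normSq g ≤ M := by linarith [mul_nonneg c0 l0.le]
  have N1 : lp * M * (2 + M ^ 2) ≤ N := by rw [hN]; gcongr; linarith
  have N2 : lp * M ≤ N := le_trans (le_mul_of_one_le_right (by positivity) (by linarith [sq_nonneg M])) N1
  have N3 : M ≤ N := by
    rw [hN]
    linarith [mul_pos M0 (pow_pos M0 2), mul_nonneg (mul_nonneg lp0 M0.le) (pow_pos M0 2).le,
      mul_nonneg lp0 M0.le]
  have N0 : 0 < N := M0.trans_le N3
  have a'N : normSq a' ≤ N * σ ^ 2 := by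
    have t : ∀ x y : ℂ, normSq (x - y) ≤ 2 * normSq x + 2 * normSq y := fun x y => by
      simp only [normSq_apply, sub_re, sub_im]
      linarith [sq_nonneg (x.re + y.re), sq_nonneg (x.im + y.im)]
    rw [ha']
    refine (t _ _).trans ?_
    simp only [normSq_mul, normSq_ofReal, map_div₀, show normSq 2 = 4 by norm_num [normSq_apply]]
    have u1 : β * β * (σ * σ) * normSq E ≤ 1 * (σ * σ) * (lp * M) :=
      mul_le_mul (mul_le_mul_of_nonneg_right (mul_le_one₀ β1 β0 β1) (mul_self_nonneg σ)) EM E0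
        (mul_nonneg zero_le_one (mul_self_nonneg σ))
    have u2 : normSq g * normSq ν / 4 * normSq a ≤ M * (M * σ ^ 2) / 4 * (lp * M) :=
      mul_le_mul (by gcongr) (aE.trans EM) a0 (by positivity)
    have u3 := mul_nonneg (mul_nonneg lp0 M0.le) (mul_nonneg (sq_nonneg M) (sq_nonneg σ))
    have u4 := mul_le_mul_of_nonneg_right N1 (sq_nonneg σ)
    linarith
  have qN : q1 + q2 ≤ N := by
    rw [hq]
    refine le_trans ?_ N2
    exact (mul_le_mul_of_nonneg_left (show Q + normSq g ≤ M by linarith) (by positivity)).trans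
      (by gcongr)
  have t1 : (l * normSq a) * normSq ν * Q ≤ 2 * c * lp * σ ^ 2 := by
    calc _ ≤ (l * normSq a) * normSq ν * (2 * c * l) := by gcongr
      _ = 2 * c * (l * normSq a) * (l * normSq ν) := by ring
      _ ≤ _ := by gcongr
  have t2 : h ^ 4 * (q1 + q2) * normSq a' ≤ h ^ 2 * (e * N * (N * σ ^ 2)) := by
    calc _ ≤ h ^ 4 * N * normSq a' := by gcongr
      _ = h ^ 2 * (h ^ 2 * N * normSq a') := by ring
      _ ≤ _ := by gcongr
  have t3 : 4 * (e * normSq a) * h ^ 2 * (normSq ν + h ^ 2 * normSq a') ≤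
      4 * (e * N) * h ^ 2 * (N * σ ^ 2 + 1 * (N * σ ^ 2)) := by
    gcongr
    · exact (aE.trans EM).trans N2
    · exact νM.trans (by gcongr)
  rw [key, hE]
  linarith [mul_le_mul_of_nonneg_left t1 (sq_nonneg h)]

end Pool.Agent.H.MP_1759d0
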