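import Pool.Agent.H.MP_1759d0.B

set_option autoImplicit false
open Set Filter Topology MeasureTheory Metric intervalIntegral Complex

namespace Pool.Agent.H.MP_1759d0

/-- conjugate gradient -/
noncomputable def gr (v : ℂ → ℝ) (y : ℂ) : ℂ := (fderiv ℝ v y 1 : ℂ) - fderiv ℝ v y I * I

/-- density -/
noncomputable def wt (v : ℂ → ℝ) (y : ℂ) : ℝ := Real.exp (v y / 2)

variable {v : ℂ → ℝ} (hv : ContDiff ℝ 2 v)

theorem wt0 (z : ℂ) : 0 < wt v z := Real.exp_pos _

theorem wt2 (z : ℂ) : wt v z ^ 2 = Real.exp (v z) := by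
  rw [wt, ← Real.exp_nat_mul]; congr 1; push_cast; ring

include hv in
theorem wtc : Continuous (wt v) := by
  have := hv.continuous
  unfold wt
  fun_prop

include hv in
theorem ex (y a : ℂ) : fderiv ℝ (fun y => Real.exp (v y)) y a = Real.exp (v y) * (gr v y * a).re ∧
    fderiv ℝ (fderiv ℝ fun y => Real.exp (v y)) y a a =
      Real.exp (v y) * (fderiv ℝ (fderiv ℝ v) y a a + (gr v y * a).re ^ 2) := by
  obtain ⟨h1, h2, -, -⟩ := v12 hv
  rw [funext fun y => (h1 y).exp.fderiv, ((h1 y).exp.fun_smul (h2 y)).fderiv, gr, ← lin]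
  simp
  ring

include hv in
theorem pt {c e h σ β b M N δ : ℝ} {z p ν E a a' : ℂ} (ha : a = b * E)
    (ha' : a' = β * σ * E - gr v z * ν / 2 * a)
    (H : ∀ η : ℂ, ‖η‖ < δ → |Real.exp (v (z + η)) - Real.exp (v z) -
      fderiv ℝ (fun y => Real.exp (v y)) z η -
      fderiv ℝ (fderiv ℝ fun y => Real.exp (v y)) z η η / 2| ≤ e * ‖η‖ ^ 2)
    (hE : Real.exp (v z) * normSq E = Real.exp (v p))
    (b0 : 0 ≤ b) (b1 : b ≤ 1) (β0 : 0 ≤ β) (β1 : β ≤ 1) (c0 : 0 ≤ c)
    (hQ : L v z ≤ 2 * c * Real.exp (v z)) (σ0 : 0 < σ)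
    (hν : wt v z * ‖ν‖ ≤ σ) (M1 : (Real.exp (v z))⁻¹ ≤ M)
    (M2 : 2 * c * Real.exp (v z) + normSq (gr v z) ≤ M) (e0 : 0 < e) (h0 : 0 < h)
    (he : h < e) (h1 : h < 1) (hδ : h < δ / (1 + Real.exp (v p) * M))
    (hN : N = (Real.exp (v p) + 1) * M * (2 + M ^ 2)) :
    wt v (z + a * h) * ‖ν + a' * h‖ + wt v (z + a * -h) * ‖ν + a' * -h‖ +
      wt v (z + a * (h * I)) * ‖ν + a' * (h * I)‖ + wt v (z + a * -(h * I)) * ‖ν + a' * -(h * I)‖ ≤
      σ * (4 + h ^ 2 * (c * Real.exp (v p) + 2 * Real.exp (v p) * β ^ 2 + 5 * e * N ^ 2)) := by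
  have l0 := Real.exp_pos (v z)
  have p0 := Real.exp_pos (v p)
  have M0 : 0 < M := (inv_pos.2 l0).trans_le M1
  have na : ‖a‖ * h < δ := by
    have : normSq E ≤ Real.exp (v p) * M := by
      calc normSq E = Real.exp (v p) * (Real.exp (v z))⁻¹ := by rw [← hE]; field_simp
        _ ≤ _ := by gcongr
    rw [normSq_eq_norm_sq] at this
    have u : ‖a‖ ≤ 1 + Real.exp (v p) * M := by
      rw [ha, norm_mul, norm_real, Real.norm_of_nonneg b0]
      nlinarith [mul_le_of_le_one_left (norm_nonneg E) b1, sq_nonneg (‖E‖ - 1)]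
    rw [lt_div_iff₀ (by positivity)] at hδ
    nlinarith
  have T : ∀ (s : ℝ) (x : ℂ), ‖x‖ = ‖a‖ → |s| = h → Real.exp (v (z + s • x)) ≤ Real.exp (v z) +
      s * (Real.exp (v z) * (gr v z * x).re) +
      h ^ 2 * fderiv ℝ (fderiv ℝ fun y => Real.exp (v y)) z x x / 2 + e * normSq a * h ^ 2 :=
    fun s x hx hs => by
      have n : ‖s • x‖ = ‖a‖ * h := by rw [norm_smul, hx, Real.norm_eq_abs, hs, mul_comm]
      have := (abs_le.1 (H (s • x) (n ▸ na))).2
      rw [n, mul_pow, ← normSq_eq_norm_sq] at this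
      simp only [map_smul, smul_apply, smul_eq_mul, (ex hv z x).1] at this
      rw [← mul_assoc s s, ← sq, ← sq_abs, hs] at this
      linarith
  have key := alg2 (c := c) (σ := σ) (N := N) (M := M) (Q := L v z) ν (gr v z) E a a' ha ha'
    (T h a rfl (abs_of_pos h0)) (by simpa [sub_eq_add_neg] using T (-h) a rfl (by simp [h0.le]))
    (T h (a * I) (by simp) (abs_of_pos h0))
    (by simpa [sub_eq_add_neg] using T (-h) (a * I) (by simp) (by simp [h0.le]))
    (by
      rw [(ex hv z _).2, (ex hv z _).2, ← mul_add, add_add_add_comm, bil, L]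
      simp [normSq_apply]
      ring) l0 hE b0 b1 β0 β1 c0 hQ (by
      rw [normSq_eq_norm_sq, ← wt2, ← mul_pow]
      gcongr
      exact mul_nonneg (wt0 _).le (norm_nonneg _)) M1 M2 e0 (by nlinarith) (by nlinarith) hN
  have am : ∀ y x : ℂ, 2 * σ * (wt v y * ‖x‖) ≤ Real.exp (v y) * normSq x + σ ^ 2 := fun y x => by
    rw [normSq_eq_norm_sq, ← wt2, ← mul_pow]
    linarith [sq_nonneg (wt v y * ‖x‖ - σ)]
  have e1 : (h : ℝ) • a = a * h := by simp [mul_comm]
  have e2 : (h : ℝ) • (a * I) = a * (h * I) := by simp; ring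
  have e3 : -(h * a) = a * -h := by ring
  have e4 : -(h * (a * I)) = a * -(h * I) := by ring
  rw [e1, e2, e3, e4] at key
  refine le_of_mul_le_mul_left ?_ (show 0 < 2 * σ by positivity)
  have := mul_nonneg (mul_nonneg (sq_nonneg σ) (sq_nonneg h)) (mul_nonneg e0.le (sq_nonneg N))
  linarith [am (z + a * h) (ν + a' * h), am (z + a * -h) (ν + a' * -h),
    am (z + a * (h * I)) (ν + a' * (h * I)), am (z + a * -(h * I)) (ν + a' * -(h * I))]

include hv in
theorem dlap {c : ℝ} (c0 : 0 ≤ c) (hK : ∀ z, L v z ≤ 2 * c * Real.exp (v z))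
    (hc : ∀ R, IsCompact {z | dst (wt v) z 0 ≤ R}) {p : ℂ} (hp : 1 ≤ dst (wt v) 0 p) {ε : ℝ}
    (hε : 0 < ε) : ∀ᶠ h in 𝓝[>] (0 : ℝ), D (dst (wt v) 0) p h ≤
      h ^ 2 * (Real.exp (v p) * (c * (dst (wt v) 0 p + 2) + 2) + ε) := by
  obtain ⟨h1, h2, c1, -⟩ := v12 hv
  have cv := hv.continuous
  have cg : Continuous (gr v) := by unfold gr; fun_prop
  have hw := wtc hv
  have h0 := wt0 (v := v)
  obtain ⟨d, hd⟩ : ∃ d, d = dst (wt v) 0 p := ⟨_, rfl⟩
  obtain ⟨ρ, hρ⟩ := (hc (d + 1)).isBounded.subset_closedBall 0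
  obtain ⟨M, hM⟩ := (isCompact_closedBall (0 : ℂ) ρ).exists_bound_of_continuousOn
    (f := fun z => (Real.exp (v z))⁻¹ + (2 * c * Real.exp (v z) + normSq (gr v z)))
    (Continuous.continuousOn (by fun_prop (disch := intro; positivity)))
  obtain ⟨N, hN⟩ : ∃ N, N = (Real.exp (v p) + 1) * M * (2 + M ^ 2) := ⟨_, rfl⟩
  obtain ⟨f1, f2, -, f3⟩ := v12 hv.exp
  rw [← hd] at hp
  have e0 : 0 < ε / (5 * (N ^ 2 + 1) * (d + 2)) := by positivity
  obtain ⟨δ, hδ, H⟩ := tay f1 f2 f3 ρ e0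
  have p0 := Real.exp_pos (v p)
  have M0 : 0 ≤ M := (norm_nonneg _).trans (hM 0 (hρ (by simp [dself h0]; linarith)))
  filter_upwards [small e0, small one_pos, small (δ := δ / (1 + Real.exp (v p) * M)) (by positivity)]
    with h ⟨hh, he⟩ ⟨_, h1'⟩ ⟨_, hδ'⟩
  refine le_of_forall_pos_le_add fun θ θ0 => ?_
  have τ0 : 0 < min (θ / 8) 1 := by positivity
  obtain ⟨τ, hτ⟩ : ∃ τ, τ = min (θ / 8) 1 := ⟨_, rfl⟩
  rw [← hτ] at τ0
  have τ1 : τ ≤ 1 := hτ ▸ min_le_right _ _
  have τ2 : τ ≤ θ / 8 := hτ ▸ min_le_left _ _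
  obtain ⟨γ, hγ, g0, g1, hl⟩ := dex (wt v) 0 p τ0
  have cs := spc hw hγ
  have cγ := hγ.continuous
  have cγ' := hγ.continuous_deriv le_rfl
  have dγ := fun t => (hγ.differentiable one_ne_zero t).hasDerivAt
  have hl' := dle h0 hγ
  rw [g0, g1, ← hd] at hl'
  rw [← hd] at hl
  let σ := fun t => sp (wt v) γ t + τ
  have cσ : Continuous σ := by fun_prop
  have σ0 : ∀ t, 0 < σ t := fun t => add_pos_of_nonneg_of_pos (sp0 h0 γ t) τ0
  obtain ⟨l, hl0⟩ : ∃ l, l = ∫ t in (0 : ℝ)..1, σ t := ⟨_, rfl⟩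
  have hl1 : l = (∫ t in (0 : ℝ)..1, sp (wt v) γ t) + τ := by
    rw [hl0, integral_add (cs.intervalIntegrable _ _) intervalIntegrable_const]
    simp
  have l1 : 1 ≤ l := by linarith
  let b := fun t => l⁻¹ * ∫ x in (0 : ℝ)..t, σ x
  let G := fun t => ∫ x in (1 : ℝ)..t, gr v (γ x) * deriv γ x / 2
  have db := fun t => (cσ.integral_hasStrictDerivAt 0 t).hasDerivAt.const_mul l⁻¹
  have dG := fun t => (Continuous.integral_hasStrictDerivAt
    (f := fun x => gr v (γ x) * deriv γ x / 2) (by fun_prop) 1 t).hasDerivAt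
  have cb : Continuous b := continuous_iff_continuousAt.2 fun t => (db t).continuousAt
  have cG : Continuous G := continuous_iff_continuousAt.2 fun t => (dG t).continuousAt
  let a := fun t => (b t : ℂ) * cexp (-G t)
  let a' := fun t => (l⁻¹ : ℝ) * σ t * cexp (-G t) - gr v (γ t) * deriv γ t / 2 * a t
  have da : ∀ t, HasDerivAt a (a' t) t := fun t =>
    ((db t).ofReal_comp.fun_mul (dG t).fun_neg.cexp).congr_deriv (by
      simp only [a', a, b, G]; push_cast; ring)
  have ca' : Continuous a' := by fun_prop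
  have hE : ∀ t, Real.exp (v (γ t)) * normSq (cexp (-G t)) = Real.exp (v p) := fun t => by
    have := is_const_of_deriv_eq_zero (𝕜 := ℝ) (f := fun t => v (γ t) - 2 * (G t).re)
      (fun t => (((h1 _).comp_hasDerivAt t (dγ t)).fun_sub
        ((reCLM.hasFDerivAt.comp_hasDerivAt t (dG t)).const_mul 2)).differentiableAt)
      (fun t => ((((h1 _).comp_hasDerivAt t (dγ t)).fun_sub
        ((reCLM.hasFDerivAt.comp_hasDerivAt t (dG t)).const_mul 2)).deriv).trans (by
          rw [lin, ← gr]; simp; ring)) t 1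
    rw [normSq_eq_norm_sq, norm_exp, ← Real.exp_nat_mul, ← Real.exp_add, ← g1]
    congr 1
    simp only [G, integral_same, zero_re] at this
    simp only [G, neg_re]
    push_cast
    linarith
  have var : ∀ η : ℂ, dst (wt v) 0 (p + η) ≤
      (∫ t in (0 : ℝ)..1, wt v (γ t + a t * η) * ‖deriv γ t + a' t * η‖) := fun η => by
    have dd := fun t => (dγ t).fun_add ((da t).mul_const η)
    have := dle h0 (γ := fun t => γ t + a t * η) (contDiff_one_iff_deriv.2
      ⟨fun t => (dd t).differentiableAt, by rw [funext fun t => (dd t).deriv]; fun_prop⟩)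
    simp only [sp, (dd _).deriv] at this
    simpa [a, b, G, g0, g1, ← hl0, (show (l : ℂ) ≠ 0 by norm_cast; linarith)] using this
  have ca : Continuous a := by fun_prop
  have ci : ∀ η : ℂ, IntervalIntegrable
      (fun t => wt v (γ t + a t * η) * ‖deriv γ t + a' t * η‖) volume 0 1 := fun η =>
    Continuous.intervalIntegrable (by fun_prop) _ _
  have := integral_mono_on zero_le_one ((((ci h).add (ci (-h))).add (ci (h * I))).add (ci (-(h * I))))
    ((cσ.mul_const _).intervalIntegrable _ _) fun t ht => by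
      have hz : γ t ∈ closedBall (0 : ℂ) ρ := hρ (by
        have u := dres h0 hγ t 0
        rw [integral_symm, abs_neg, abs_of_nonneg (integral_nonneg ht.1 fun x _ => sp0 h0 γ _),
          g0] at u
        have := integral_add_adjacent_intervals (μ := volume) (cs.intervalIntegrable 0 t)
          (cs.intervalIntegrable t 1)
        have := integral_nonneg (μ := volume) ht.2 fun x _ => sp0 h0 γ x
        change dst (wt v) (γ t) 0 ≤ d + 1
        linarith)
      have hM' := (le_abs_self _).trans (hM _ hz)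
      have q0 := Real.exp_pos (v (γ t))
      have := integral_add_adjacent_intervals (μ := volume) (cσ.intervalIntegrable 0 t)
        (cσ.intervalIntegrable t 1)
      have s0 := integral_nonneg (μ := volume) ht.1 fun x _ => (σ0 x).le
      have s1 := integral_nonneg (μ := volume) ht.2 fun x _ => (σ0 x).le
      exact pt hv (N := N) (M := M) (c := c) (β := l⁻¹) rfl rfl
        (H _ (mem_closedBall_zero_iff.1 hz)) (hE t) (by positivity)
        (inv_mul_le_one_of_le₀ (by linarith) (by linarith)) (by positivity) (inv_le_one_of_one_le₀ l1)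
        c0 (hK _) (σ0 t) (le_add_of_nonneg_right τ0.le)
        (le_trans (le_add_of_nonneg_right (add_nonneg (by positivity) (normSq_nonneg _))) hM')
        (le_trans (le_add_of_nonneg_left (by positivity)) hM') e0 hh he h1' hδ' hN
  rw [integral_add (((ci _).add (ci _)).add (ci _)) (ci _), integral_add ((ci _).add (ci _)) (ci _),
    integral_add (ci _) (ci _), intervalIntegral.integral_mul_const, ← hl0] at this
  have t1 : l * (c * Real.exp (v p)) ≤ (d + 2) * (c * Real.exp (v p)) := by gcongr; linarith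
  have t2 : l * (2 * Real.exp (v p) * l⁻¹ ^ 2) ≤ 2 * Real.exp (v p) := by
    rw [show l * (2 * Real.exp (v p) * l⁻¹ ^ 2) = 2 * Real.exp (v p) * l⁻¹ by field_simp]
    exact mul_le_of_le_one_right (by positivity) (inv_le_one_of_one_le₀ l1)
  have t3 : l * (5 * (ε / (5 * (N ^ 2 + 1) * (d + 2))) * N ^ 2) ≤ ε := by
    calc _ ≤ (d + 2) * (5 * (ε / (5 * (N ^ 2 + 1) * (d + 2))) * (N ^ 2 + 1)) := by
          gcongr <;> linarith
      _ = _ := by field_simp
  rw [D, ← hd]
  linarith [var h, var (-h), var (h * I), var (-(h * I)), mul_le_mul_of_nonneg_left t1 (sq_nonneg h),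
    mul_le_mul_of_nonneg_left t2 (sq_nonneg h), mul_le_mul_of_nonneg_left t3 (sq_nonneg h)]

end Pool.Agent.H.MP_1759d0
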