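import Pool.Agent.H.MP_1759d0.C

set_option autoImplicit false
open Set Filter Topology MeasureTheory Metric intervalIntegral Complex

namespace Pool.Agent.H.MP_1759d0

variable {v : ℂ → ℝ} (hv : ContDiff ℝ 2 v)

theorem four {p : ℂ} {s : Set ℂ} (hs : s ∈ 𝓝 p) : ∀ᶠ h : ℝ in 𝓝[>] (0 : ℝ),
    p + h ∈ s ∧ p + -h ∈ s ∧ p + h * I ∈ s ∧ p + -(h * I) ∈ s := by
  obtain ⟨δ, hδ, H⟩ := Metric.mem_nhds_iff.1 hs
  filter_upwards [small hδ] with h ⟨h0, hh⟩
  refine ⟨H ?_, H ?_, H ?_, H ?_⟩ <;> simpa [abs_of_pos h0]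

include hv in
theorem sub (hK : ∀ z, 0 ≤ L v z) {r : ℝ} (hr : 0 < r) : ∃ z : ℂ, ‖z‖ = r ∧ v 0 - 1 ≤ v z := by
  have cv := hv.continuous
  obtain ⟨p, hp, H⟩ := (isCompact_closedBall (0 : ℂ) r).exists_isMaxOn ⟨0, by simp [hr.le]⟩
    (f := fun z => v z + (r ^ 2)⁻¹ * normSq z) (Continuous.continuousOn (by fun_prop))
  rcases (mem_closedBall_zero_iff.1 hp).eq_or_lt with h | h
  · have := H (show (0 : ℂ) ∈ _ by simp [hr.le])
    simp [normSq_eq_norm_sq, h, hr.ne'] at this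
    exact ⟨p, h, by linarith⟩
  have e0 : 0 < (r ^ 2)⁻¹ := by positivity
  obtain ⟨h, ⟨h0, -⟩, h1, a, b, c, d⟩ := ((small one_pos).and ((dv hv p e0).and
    (four (closedBall_mem_nhds_of_mem (mem_ball_zero_iff.2 h))))).exists
  have a := H a
  have b := H b
  have c := H c
  have d := H d
  simp only [mem_ofPred_eq, normSq_apply] at a b c d
  simp at a b c d
  have := (abs_le.1 h1).1
  rw [D] at this
  exfalso
  nlinarith [mul_nonneg (sq_nonneg h) (hK p), mul_pos e0 (pow_pos h0 2)]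

theorem lg {x y : ℝ} (y0 : 0 < y) (h : |x| ≤ y / 2) :
    Real.log y - x / y - 2 * x ^ 2 / y ^ 2 ≤ Real.log (y - x) := by
  obtain ⟨a, b⟩ := abs_le.1 h
  have p : 0 < y - x := by linarith
  have := Real.one_sub_inv_le_log_of_pos (div_pos p y0)
  rw [Real.log_div p.ne' y0.ne', inv_div] at this
  have e : y / (y - x) ≤ 1 + x / y + 2 * x ^ 2 / y ^ 2 := by
    rw [div_le_iff₀ p]
    field_simp
    nlinarith [mul_nonneg (sq_nonneg x) (show 0 ≤ y - 2 * x by linarith)]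
  linarith

include hv in
theorem mx {c κ B : ℝ} (c0 : 0 ≤ c) (hK : ∀ z, L v z ≤ 2 * c * Real.exp (v z))
    (hc : ∀ R, IsCompact {z | dst (wt v) z 0 ≤ R}) {H : ℂ → ℝ} {Ω : Set ℂ} (hΩ : IsClosed Ω)
    (hH : ContinuousOn H Ω) (B0 : 0 ≤ B) (κ0 : 0 < κ) (hB : 4 * c + 34 ≤ κ * B ^ 2)
    (alt : ∀ p ∈ Ω, Real.exp (H p - v p / 2) ≤ B ∨ Ω ∈ 𝓝 p ∧ 1 ≤ dst (wt v) 0 p ∧ ∀ ε > 0,
      ∀ᶠ h in 𝓝[>] (0 : ℝ), (κ * Real.exp (H p) ^ 2 - ε) * h ^ 2 ≤ D H p h)
    {z : ℂ} (hz : z ∈ Ω) : Real.exp (H z - v z / 2) ≤ 2 * B := by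
  have cv := hv.continuous
  have hw := wtc hv
  have h0 := wt0 (v := v)
  have cd := dcont hw h0 0
  obtain ⟨d, hd⟩ : ∃ d, d = dst (wt v) 0 := ⟨_, rfl⟩
  have dn : ∀ z, 0 ≤ d z := fun z => hd ▸ d0 h0 0 z
  obtain ⟨R, hR⟩ : ∃ R, R = 2 * d z + 1 := ⟨_, rfl⟩
  have hS : {z | dst (wt v) z 0 ≤ R} = {z | d z ≤ R} := by simp only [hd, dcomm h0 _ 0]
  rw [← hd] at cd alt
  have z0 := dn z
  have zS : z ∈ {z | dst (wt v) z 0 ≤ R} ∩ Ω := ⟨hS ▸ show d z ≤ R by linarith, hz⟩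
  obtain ⟨p, hp, hm⟩ := ((hc R).inter_right hΩ).exists_isMaxOn ⟨z, zS⟩
    (f := fun z => Real.exp (H z - v z / 2) * (R - d z))
    ((((hH.mono inter_subset_right).sub (by fun_prop)).rexp).mul (by fun_prop))
  have hz' : Real.exp (H z - v z / 2) * (R - d z) ≤ Real.exp (H p - v p / 2) * (R - d p) := hm zS
  have e1 := Real.exp_pos (H z - v z / 2)
  have e2 := Real.exp_pos (H p - v p / 2)
  obtain ⟨y, hy⟩ : ∃ y, y = R - d p := ⟨_, rfl⟩
  rw [← hy] at hz'
  have y0 : 0 < y := by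
    by_contra hn
    nlinarith [mul_pos e1 (show 0 < R - d z by linarith)]
  have yR : y ≤ R := by linarith [dn p]
  suffices Real.exp (H p - v p / 2) * y ≤ B * R by nlinarith
  rcases alt p hp.2 with h | ⟨a1, a2, a3⟩
  · gcongr
  have l0 := Real.exp_pos (v p)
  have w0 := h0 p
  have key : κ * Real.exp (H p) ^ 2 ≤ c * Real.exp (v p) +
      Real.exp (v p) * (c * (d p + 2) + 2) / y + 32 * Real.exp (v p) / y ^ 2 := by
    refine le_of_forall_pos_le_add fun θ θ0 => ?_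
    have e0 : 0 < θ / (2 + 1 / y) := by positivity
    obtain ⟨δ, hδ, hb⟩ := Metric.mem_nhds_iff.1
      (hw.continuousAt.eventually (ge_mem_nhds (show wt v p < 2 * wt v p by linarith)))
    obtain ⟨h, ⟨⟨hh, hδ'⟩, -, hy'⟩, ⟨b1, b2, b3⟩, s1, s2, s3, s4⟩ := (((small hδ).and
      (small (show 0 < y / (4 * wt v p) by positivity))).and (((a3 _ e0).and ((dv hv p e0).and
      (dlap hv c0 hK hc (hd ▸ a2) e0))).and (four a1))).exists
    have st : ∀ η : ℂ, ‖η‖ = h → p + η ∈ Ω → H (p + η) - v (p + η) / 2 -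
        (d (p + η) - d p) / y - 8 * Real.exp (v p) * h ^ 2 / y ^ 2 ≤ H p - v p / 2 := fun η n hη => by
      have u := dup hw h0 (convex_ball p δ) hb (mem_ball_self hδ) (q := p + η) (by simpa [n])
      rw [add_sub_cancel_left, n] at u
      have x : |d (p + η) - d p| ≤ 2 * wt v p * h := by
        rw [abs_le, hd]
        constructor <;> linarith [dtri hw h0 0 p (p + η), dtri hw h0 0 (p + η) p, dcomm h0 p (p + η)]
      rw [lt_div_iff₀ (by positivity)] at hy'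
      have x1 : |d (p + η) - d p| ≤ y / 2 := by linarith
      have x2 := (abs_le.1 x1).2
      have m : Real.exp (H (p + η) - v (p + η) / 2) * (R - d (p + η)) ≤
          Real.exp (H p - v p / 2) * (R - d p) := hm ⟨hS ▸ show d (p + η) ≤ R by linarith, hη⟩
      have p1 : 0 < y - (d (p + η) - d p) := by linarith
      rw [← hy, show R - d (p + η) = y - (d (p + η) - d p) by linarith] at m
      have m2 := Real.log_le_log (by positivity) m
      rw [Real.log_mul (Real.exp_pos _).ne' p1.ne', Real.log_mul e2.ne' y0.ne', Real.log_exp,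
        Real.log_exp] at m2
      have x3 : 2 * (d (p + η) - d p) ^ 2 / y ^ 2 ≤ 8 * Real.exp (v p) * h ^ 2 / y ^ 2 := by
        have := pow_le_pow_left₀ (abs_nonneg _) x 2
        rw [sq_abs, mul_pow, mul_pow, wt2] at this
        exact div_le_div_of_nonneg_right (by linarith) (sq_nonneg y)
      linarith [lg y0 x1]
    have t1 := st _ (by simp [hh.le]) s1
    have t2 := st _ (by simp [hh.le]) s2
    have t3 := st _ (by simp [hh.le]) s3
    have t4 := st _ (by simp [hh.le]) s4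
    have b3' := div_le_div_of_nonneg_right b3 y0.le
    have b2' := (abs_le.1 b2).2
    rw [← hd] at b3'
    simp only [D] at b1 b2' b3'
    have b4 := mul_le_mul_of_nonneg_left (hK p) (sq_nonneg h)
    have b5 : θ / (2 + 1 / y) * (2 + 1 / y) = θ := by field_simp
    refine le_of_mul_le_mul_right ?_ (pow_pos hh 2)
    have b6 := mul_pos e0 (pow_pos hh 2)
    generalize θ / (2 + 1 / y) = e at *
    rw [← b5]
    simp only [div_eq_mul_inv] at *
    linarith
  have e3 : Real.exp (H p - v p / 2) ^ 2 * Real.exp (v p) = Real.exp (H p) ^ 2 := by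
    rw [← wt2, ← mul_pow, wt, ← Real.exp_add, sub_add_cancel]
  have k2 : κ * (Real.exp (H p - v p / 2) * y) ^ 2 ≤ c * y ^ 2 + (c * (d p + 2) + 2) * y + 32 := by
    rw [← e3] at key
    refine le_of_mul_le_mul_right ?_ (show 0 < Real.exp (v p) / y ^ 2 by positivity)
    refine (le_of_eq (by field_simp)).trans (key.trans (le_of_eq (by field_simp)))
  have R1 : 1 ≤ R := by linarith
  have k3 : c * y ^ 2 + (c * (d p + 2) + 2) * y + 32 ≤ (4 * c + 34) * R ^ 2 := by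
    have u1 : c * y ^ 2 ≤ c * R ^ 2 := by gcongr
    have u2 : (c * (d p + 2) + 2) * y ≤ (c * (3 * R) + 2 * R) * R := by
      gcongr <;> linarith
    nlinarith
  have k4 := mul_le_mul_of_nonneg_right hB (sq_nonneg R)
  refine le_of_sq_le_sq (le_of_mul_le_mul_left ?_ κ0) (by positivity)
  rw [mul_pow B]
  linarith

end Pool.Agent.H.MP_1759d0
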