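import Pool.Agent.H.MP_1759d0.D

set_option autoImplicit false
open Set Filter Topology MeasureTheory Metric intervalIntegral Complex

namespace Pool.Agent.H.MP_1759d0

theorem one {n a τ y : ℝ} (n0 : 0 < n) (τ0 : 0 < τ) (h1 : τ ≤ a) (h2 : |y| / n ≤ a)
    (hτ : -Real.log τ ≤ 4 * √n) :
    -Real.log a ≤ 4 * √n * (√(y + 1) - √(-(y + 1)) - (√(y - 1) - √(-(y - 1)))) := by
  wlog y0 : 0 ≤ y generalizing y
  · have := this (y := -y) (by rwa [abs_neg]) (by linarith)
    rw [show -y + 1 = -(y - 1) by ring, show -y - 1 = -(y + 1) by ring, neg_neg, neg_neg] at this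
    linarith
  rw [abs_of_nonneg y0] at h2
  have s0 := Real.sqrt_nonneg n
  rw [Real.sqrt_eq_zero_of_nonpos (show -(y + 1) ≤ 0 by linarith)]
  rcases le_total y 1 with h | h
  · rw [Real.sqrt_eq_zero_of_nonpos (show y - 1 ≤ 0 by linarith)]
    have := Real.log_le_log τ0 h1
    have u : 1 ≤ √(y + 1) := Real.one_le_sqrt.2 (by linarith)
    nlinarith [Real.sqrt_nonneg (-(y - 1))]
  rw [Real.sqrt_eq_zero_of_nonpos (show -(y - 1) ≤ 0 by linarith)]
  have y1 : 0 < √y := Real.sqrt_pos.2 (by linarith)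
  have n1 : 0 < √n := Real.sqrt_pos.2 n0
  have e := Real.log_le_log (by positivity) h2
  have f := Real.log_le_sub_one_of_pos (div_pos n1 y1)
  rw [Real.log_div n1.ne' y1.ne', Real.log_sqrt n0.le, Real.log_sqrt y0] at f
  rw [Real.log_div (by linarith) n0.ne'] at e
  have g : 1 / √y ≤ 2 * (√(y + 1) - √(y - 1)) := by
    have a1 : √y ≤ √(y + 1) := Real.sqrt_le_sqrt (by linarith)
    have a2 := Real.mul_self_sqrt y0
    have a3 := Real.mul_self_sqrt (show 0 ≤ y - 1 by linarith)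
    rw [div_le_iff₀ y1]
    nlinarith [sq_nonneg (√y - √(y - 1))]
  have := mul_le_mul_of_nonneg_left g s0
  rw [mul_one_div] at this
  linarith

theorem pot {s τ : ℝ} {n : ℕ} (n1 : 1 ≤ n) (s0 : 0 < s) (τ0 : 0 < τ)
    (hτ : -Real.log (τ / s) ≤ 4 * √(n : ℝ)) {a : ℕ → ℂ} (ha : ∀ j, ‖a j‖ = s * (2 + j / n)) {z : ℂ}
    (hz : ∀ j ∈ Finset.range n, τ ≤ ‖z - a j‖) : Real.log (s ^ 2 + normSq z) ≤
      2 * ((n : ℝ)⁻¹ * ∑ j ∈ Finset.range n, Real.log ‖z - a j‖) + 80 := by
  have n1' : (1 : ℝ) ≤ n := by exact_mod_cast n1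
  have z0 := norm_nonneg z
  rw [normSq_eq_norm_sq]
  rcases le_total ‖z‖ (4 * s) with h | h
  · obtain ⟨x, hx⟩ : ∃ x, x = n * (‖z‖ / s - 2) := ⟨_, rfl⟩
    have t0 : 0 ≤ ‖z‖ / s := by positivity
    have t1 : ‖z‖ / s ≤ 4 := by rwa [div_le_iff₀ s0]
    have := Finset.sum_le_sum fun (j : ℕ) (hj : j ∈ Finset.range n) => one (n := n) (y := j - x) (by linarith) (div_pos τ0 s0)
      (div_le_div_of_nonneg_right (hz j hj) s0.le) (by
        have := abs_norm_sub_norm_le (a j) z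
        rw [norm_sub_rev, ha] at this
        refine le_trans (le_of_eq ?_) (div_le_div_of_nonneg_right this s0.le)
        rw [show s * (2 + j / n) - ‖z‖ = (j - x) * (s / n) by rw [hx]; field_simp; ring, abs_mul,
          abs_of_pos (show 0 < s / n by positivity)]
        field_simp) hτ
    have e := Finset.sum_range_sub (fun j : ℕ => √((j : ℝ) - x) - √(-((j : ℝ) - x)) +
      (√((j : ℝ) - x - 1) - √(-((j : ℝ) - x - 1)))) n
    have e1 : ∑ j ∈ Finset.range n, (√((j : ℝ) - x + 1) - √(-((j : ℝ) - x + 1)) -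
        (√((j : ℝ) - x - 1) - √(-((j : ℝ) - x - 1)))) = _ :=
      (Finset.sum_congr rfl fun j _ => by push_cast; ring_nf).trans e
    have e2 : ∑ j ∈ Finset.range n, -Real.log (‖z - a j‖ / s) =
        ∑ j ∈ Finset.range n, (Real.log s - Real.log ‖z - a j‖) := Finset.sum_congr rfl fun j hj => by
      rw [Real.log_div (τ0.trans_le (hz j hj)).ne' s0.ne', neg_sub]
    rw [← Finset.mul_sum, e1, e2, Finset.sum_sub_distrib] at this
    have b : ∀ u, u ≤ 4 * (n : ℝ) → √u ≤ 2 * √(n : ℝ) := fun u hu =>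
      (Real.sqrt_le_sqrt hu).trans (by rw [Real.sqrt_mul (by norm_num), show (4 : ℝ) = 2 ^ 2 by
        norm_num, Real.sqrt_sq zero_le_two])
    have x1 : x ≤ 2 * n := by nlinarith
    have x2 : -(2 * n) ≤ x := by nlinarith
    have q := Real.mul_self_sqrt (show (0 : ℝ) ≤ n by linarith)
    have u : n * Real.log s - ∑ j ∈ Finset.range n, Real.log ‖z - a j‖ ≤ 32 * n := by
      simp only [Finset.sum_const, Finset.card_range, nsmul_eq_mul] at this
      refine this.trans ((mul_le_mul_of_nonneg_left (show _ ≤ 8 * √(n : ℝ) from ?_)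
        (by positivity)).trans (by linarith))
      linarith [b (n - x) (by linarith), b (n - x - 1) (by linarith),
        b (-(((0 : ℕ) : ℝ) - x)) (by simp; linarith), b (-(((0 : ℕ) : ℝ) - x - 1)) (by simp; linarith),
        Real.sqrt_nonneg (-(n - x)), Real.sqrt_nonneg (-(n - x - 1)),
        Real.sqrt_nonneg (((0 : ℕ) : ℝ) - x), Real.sqrt_nonneg (((0 : ℕ) : ℝ) - x - 1)]
    have u2 := mul_le_mul_of_nonneg_left u (show 0 ≤ (n : ℝ)⁻¹ by positivity)
    rw [mul_sub, inv_mul_cancel_left₀ (by linarith), mul_comm 32, inv_mul_cancel_left₀ (by linarith)] at u2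
    have u3 := Real.log_le_log (by positivity) (show s ^ 2 + ‖z‖ ^ 2 ≤ 17 * s ^ 2 by nlinarith)
    rw [Real.log_mul (by norm_num) (by positivity), Real.log_pow] at u3
    have := Real.log_le_sub_one_of_pos (show (0 : ℝ) < 17 by norm_num)
    push_cast at u3
    linarith
  · have := Finset.sum_le_sum fun j (hj : j ∈ Finset.range n) => Real.log_le_log
      (show 0 < ‖z‖ / 4 by linarith) (show _ ≤ ‖z - a j‖ by
        have : (j : ℝ) / n ≤ 1 := div_le_one_of_le₀ (by exact_mod_cast (Finset.mem_range.1 hj).le)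
          (by linarith)
        nlinarith [norm_sub_norm_le z (a j), ha j])
    simp only [Finset.sum_const, Finset.card_range, nsmul_eq_mul] at this
    have u2 := mul_le_mul_of_nonneg_left this (show 0 ≤ (n : ℝ)⁻¹ by positivity)
    rw [inv_mul_cancel_left₀ (by linarith)] at u2
    have u3 := Real.log_le_log (by positivity) (show s ^ 2 + ‖z‖ ^ 2 ≤ 32 * (‖z‖ / 4) ^ 2 by nlinarith)
    rw [Real.log_mul (by norm_num) (pow_pos (by linarith) 2).ne', Real.log_pow] at u3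
    have := Real.log_le_sub_one_of_pos (show (0 : ℝ) < 32 by norm_num)
    push_cast at u3
    linarith

theorem dlog {s : ℝ} (s0 : 0 < s) (p : ℂ) {ε : ℝ} (hε : 0 < ε) : ∀ᶠ h in 𝓝[>] (0 : ℝ),
    (4 * s ^ 2 / (s ^ 2 + normSq p) ^ 2 - ε) * h ^ 2 ≤ D (fun z => Real.log (s ^ 2 + normSq z)) p h := by
  obtain ⟨A, hA⟩ : ∃ A, A = s ^ 2 + normSq p := ⟨_, rfl⟩
  have pos : ∀ z : ℂ, 0 < s ^ 2 + normSq z := fun z => add_pos_of_pos_of_nonneg (by positivity) (normSq_nonneg z)
  have A0 : 0 < A := hA ▸ pos p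
  have u := fun x : ℝ => ((((hasDerivAt_id' (0 : ℝ)).const_add A).fun_pow 2).fun_sub
    ((hasDerivAt_id' (0 : ℝ)).mul_const (4 * x ^ 2))).log (by simp [A0.ne'])
  have t : Tendsto (fun h : ℝ => h ^ 2) (𝓝[>] 0) (𝓝[≠] 0) :=
    tendsto_nhdsWithin_iff.2 ⟨((continuous_pow 2).tendsto' 0 0 (by simp)).mono_left nhdsWithin_le_nhds,
      eventually_mem_nhdsWithin.mono fun h hh => (pow_pos hh 2).ne'⟩
  have := (((u p.re).fun_add (u p.im)).tendsto_slope_zero.comp t).eventually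
    (le_mem_nhds (show 4 * s ^ 2 / A ^ 2 - ε < _ from (sub_lt_self _ hε).trans_eq (by
      have : s ^ 2 = A - p.re ^ 2 - p.im ^ 2 := by rw [hA, normSq_apply]; ring
      rw [this]; simp; field_simp; ring)))
  filter_upwards [this, small one_pos] with h hh ⟨h0, _⟩
  simp only [Function.comp, smul_eq_mul, zero_add, add_zero, zero_mul, sub_zero] at hh
  rw [inv_mul_eq_div, le_div_iff₀ (pow_pos h0 2)] at hh
  rw [← hA]
  refine hh.trans (le_of_eq ?_)
  have e1 : (A + h ^ 2) ^ 2 - h ^ 2 * (4 * p.re ^ 2) =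
      (s ^ 2 + normSq (p + h)) * (s ^ 2 + normSq (p + -h)) := by simp [hA, normSq_apply]; ring
  have e2 : (A + h ^ 2) ^ 2 - h ^ 2 * (4 * p.im ^ 2) =
      (s ^ 2 + normSq (p + h * I)) * (s ^ 2 + normSq (p + -(h * I))) := by simp [hA, normSq_apply]; ring
  rw [e1, e2, Real.log_mul (pos _).ne' (pos _).ne', Real.log_mul (pos _).ne' (pos _).ne', D, ← hA,
    Real.log_pow]
  push_cast
  ring

theorem dpole {a p : ℂ} {h τ : ℝ} (τ0 : 0 < τ) (h0 : τ ≤ ‖p - a‖) (h1 : τ ≤ ‖p + h - a‖)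
    (h2 : τ ≤ ‖p + -h - a‖) (h3 : τ ≤ ‖p + h * I - a‖) (h4 : τ ≤ ‖p + -(h * I) - a‖) :
    D (fun z => Real.log ‖z - a‖) p h ≤ h ^ 4 / τ ^ 4 := by
  have p0 := τ0.trans_le h0
  have p1 := τ0.trans_le h1
  have p2 := τ0.trans_le h2
  have p3 := τ0.trans_le h3
  have p4 := τ0.trans_le h4
  have e : ‖p + h - a‖ * ‖p + -h - a‖ * ‖p + h * I - a‖ * ‖p + -(h * I) - a‖ ≤ ‖p - a‖ ^ 4 + h ^ 4 := by
    rw [← norm_mul, ← norm_mul, ← norm_mul, show (p + h - a) * (p + -h - a) * (p + h * I - a) *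
      (p + -(h * I) - a) = (p - a) ^ 4 - (h ^ 4 : ℝ) by push_cast; grind [I_sq]]
    refine (norm_sub_le _ _).trans (le_of_eq ?_)
    rw [norm_pow, norm_real, Real.norm_of_nonneg (by positivity)]
  have := Real.log_le_sub_one_of_pos (show 0 < ‖p + h - a‖ * ‖p + -h - a‖ * ‖p + h * I - a‖ *
    ‖p + -(h * I) - a‖ / ‖p - a‖ ^ 4 by positivity)
  rw [Real.log_div (by positivity) (by positivity), Real.log_mul (by positivity) p4.ne',
    Real.log_mul (by positivity) p3.ne', Real.log_mul p1.ne' p2.ne', Real.log_pow] at this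
  have f := div_le_div_of_nonneg_right e (pow_pos p0 4).le
  rw [add_div, div_self (pow_pos p0 4).ne'] at f
  have g : h ^ 4 / ‖p - a‖ ^ 4 ≤ h ^ 4 / τ ^ 4 := by gcongr
  push_cast at this
  simp only [D]
  linarith

variable {v : ℂ → ℝ} (hv : ContDiff ℝ 2 v)

include hv in
theorem low {c : ℝ} (c0 : 0 ≤ c) (hK : ∀ z, 0 ≤ L v z ∧ L v z ≤ 2 * c * Real.exp (v z))
    (hc : ∀ R, IsCompact {z | dst (wt v) z 0 ≤ R}) :
    ∃ B > 0, ∀ z : ℂ, 1 ≤ ‖z‖ → 1 ≤ B * ‖z‖ * wt v z := by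
  have cv := hv.continuous
  have h0 := wt0 (v := v)
  obtain ⟨m, hm⟩ := (hc 1).exists_bound_of_continuousOn cv.continuousOn
  obtain ⟨B, hB⟩ : ∃ B, B = Real.exp 160 * (Real.exp (m / 2 + 1) + c + 9) := ⟨_, rfl⟩
  have B0 : 0 < B := by rw [hB]; positivity
  refine ⟨256 * B, by positivity, fun z s1 => ?_⟩
  obtain ⟨s, hs⟩ : ∃ s, s = ‖z‖ := ⟨_, rfl⟩
  rw [← hs] at s1 ⊢
  have s0 : 0 < s := by linarith
  obtain ⟨δ, δ0, hδ⟩ := Metric.uniformContinuousOn_iff.1
    ((isCompact_closedBall (0 : ℂ) (3 * s + 1)).uniformContinuousOn_of_continuous cv.continuousOn) 1 one_pos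
  obtain ⟨τ, hτ⟩ : ∃ τ, τ = min (δ / 2) 1 := ⟨_, rfl⟩
  have τ0 : 0 < τ := by rw [hτ]; positivity
  have τ1 : τ ≤ 1 := hτ ▸ min_le_right _ _
  have τ2 : τ ≤ δ / 2 := hτ ▸ min_le_left _ _
  obtain ⟨n, hn⟩ := exists_nat_ge (max 1 (Real.log (τ / s) ^ 2))
  have n1 : (1 : ℝ) ≤ n := (le_max_left _ _).trans hn
  have n2 : -Real.log (τ / s) ≤ 4 * √(n : ℝ) := by
    linarith [Real.abs_le_sqrt ((le_max_right _ _).trans hn), neg_abs_le (Real.log (τ / s)),
      Real.sqrt_nonneg (n : ℝ)]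
  choose a ha hva using fun j : ℕ => sub hv (fun z => (hK z).1) (r := s * (2 + j / n)) (by positivity)
  have a3 : ∀ j ∈ Finset.range n, ‖a j‖ ≤ 3 * s := fun j hj => by
    have : (j : ℝ) / n ≤ 1 := div_le_one_of_le₀ (by exact_mod_cast (Finset.mem_range.1 hj).le)
      (by linarith)
    nlinarith [ha j]
  let P := fun z : ℂ => (n : ℝ)⁻¹ * ∑ j ∈ Finset.range n, Real.log ‖z - a j‖
  let H := fun z : ℂ => Real.log s + Real.log (s ^ 2 + normSq z) - 4 * P z
  let Ω := {z : ℂ | ∀ j ∈ Finset.range n, τ ≤ ‖z - a j‖}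
  have pos : ∀ z : ℂ, 0 < s ^ 2 + normSq z := fun z => add_pos_of_pos_of_nonneg (by positivity) (normSq_nonneg z)
  have hH : ∀ p ∈ Ω, Real.exp (H p) ≤ Real.exp 160 * (s / (s ^ 2 + normSq p)) := fun p hp => by
    rw [← Real.exp_log (div_pos s0 (pos p)), ← Real.exp_add, Real.log_div s0.ne' (pos p).ne']
    have := pot (by exact_mod_cast n1) s0 τ0 n2 ha hp
    exact Real.exp_le_exp.2 (by simp only [H, P]; linarith)
  have easy : ∀ p ∈ Ω, -m - 2 ≤ v p → Real.exp (H p - v p / 2) ≤ B := fun p hp h => by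
    rw [sub_eq_add_neg, Real.exp_add, hB]
    refine mul_le_mul ((hH p hp).trans (mul_le_of_le_one_right (by positivity)
      (div_le_one_of_le₀ (by nlinarith [normSq_nonneg p]) (pos p).le))) ?_ (by positivity) (by positivity)
    linarith [Real.exp_le_exp.2 (show -(v p / 2) ≤ m / 2 + 1 by linarith)]
  have zΩ : z ∈ Ω := fun j _ => by
    have : 0 ≤ s * (j / n) := by positivity
    rw [norm_sub_rev]
    linarith [norm_sub_norm_le (a j) z, ha j]
  have := mx hv (κ := 4 / Real.exp 160 ^ 2) c0 (fun z => (hK z).2) hc (H := H) (Ω := Ω)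
    (by
      simp only [Ω, ofPred_forall]
      exact isClosed_iInter fun j => isClosed_iInter fun _ => isClosed_le continuous_const (by fun_prop))
    ((continuousOn_const.add (Continuous.continuousOn (Continuous.log (by fun_prop)
      fun z => (pos z).ne'))).sub (continuousOn_const.mul (continuousOn_const.mul
      (continuousOn_finsetSum _ fun j hj => ContinuousOn.log (by fun_prop)
        fun z hz => (τ0.trans_le (hz j hj)).ne')))) B0.le (by positivity)
    (by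
      rw [hB, mul_pow, ← mul_assoc, div_mul_cancel₀ _ (by positivity)]
      nlinarith [Real.exp_pos (m / 2 + 1)]) (fun p hp => ?_) zΩ
  · have u : P z ≤ Real.log (4 * s) := by
      have := Finset.sum_le_sum fun j (hj : j ∈ Finset.range n) => Real.log_le_log
        (τ0.trans_le (zΩ j hj)) (show _ ≤ 4 * s by linarith [norm_sub_le z (a j), a3 j hj])
      simp only [Finset.sum_const, Finset.card_range, nsmul_eq_mul] at this
      have u2 := mul_le_mul_of_nonneg_left this (show 0 ≤ (n : ℝ)⁻¹ by positivity)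
      rwa [inv_mul_cancel_left₀ (by linarith)] at u2
    have u2 : 1 / (128 * s) ≤ Real.exp (H z) := by
      rw [show 1 / (128 * s) = s * (s ^ 2 + normSq z) / (4 * s) ^ 4 by
        rw [normSq_eq_norm_sq, ← hs]; field_simp; norm_num, ← Real.log_le_iff_le_exp
        (div_pos (mul_pos s0 (pos z)) (by positivity)), Real.log_div (mul_pos s0 (pos z)).ne'
        (by positivity), Real.log_mul s0.ne' (pos z).ne', Real.log_pow]
      simp only [H]
      push_cast
      linarith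
    rw [Real.exp_sub, div_le_iff₀ (Real.exp_pos _)] at this
    rw [div_le_iff₀ (by positivity)] at u2
    rw [wt]
    nlinarith
  have v0 := (abs_le.1 (hm 0 (by simp [dself h0]))).1
  by_cases c1 : ∃ j ∈ Finset.range n, ‖p - a j‖ ≤ τ
  · obtain ⟨j, hj, c1⟩ := c1
    have := hδ p (by
      rw [mem_closedBall_zero_iff]
      linarith [norm_sub_norm_le p (a j), a3 j hj]) (a j) (by
      rw [mem_closedBall_zero_iff]
      linarith [a3 j hj]) (by rw [dist_eq_norm]; linarith)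
    rw [Real.dist_eq, abs_lt] at this
    exact .inl (easy p hp (by linarith [hva j, this.1]))
  rcases le_total (dst (wt v) 0 p) 1 with c2 | c2
  · exact .inl (easy p hp (by linarith [(abs_le.1 (hm p ((dcomm h0 p 0).trans_le c2))).1]))
  push Not at c1
  have nb : Ω ∈ 𝓝 p := (eventually_all_finset _).2 fun j hj =>
    (Continuous.continuousAt (f := fun z => ‖z - a j‖) (by fun_prop)).eventually (le_mem_nhds (c1 j hj))
  refine .inr ⟨nb, c2, fun ε hε => ?_⟩
  filter_upwards [dlog s0 p (half_pos hε), four nb, small one_pos,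
    small (show 0 < ε * τ ^ 4 / 8 by positivity)] with h k1 ⟨b1, b2, b3, b4⟩ ⟨hh, h1⟩ ⟨_, h2⟩
  have k2 := Finset.sum_le_sum fun j (hj : j ∈ Finset.range n) =>
    dpole τ0 (hp j hj) (b1 j hj) (b2 j hj) (b3 j hj) (b4 j hj)
  simp only [Finset.sum_const, Finset.card_range, nsmul_eq_mul] at k2
  have k3 := mul_le_mul_of_nonneg_left k2 (show 0 ≤ (n : ℝ)⁻¹ by positivity)
  rw [inv_mul_cancel_left₀ (by linarith)] at k3
  have k4 : h ^ 4 / τ ^ 4 ≤ ε / 8 * h ^ 2 := by
    rw [div_le_iff₀ (by positivity)]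
    nlinarith [mul_le_mul_of_nonneg_left (show h ^ 2 ≤ ε * τ ^ 4 / 8 by nlinarith) (sq_nonneg h)]
  have k5 : 4 / Real.exp 160 ^ 2 * Real.exp (H p) ^ 2 ≤ 4 * s ^ 2 / (s ^ 2 + normSq p) ^ 2 := by
    calc _ ≤ 4 / Real.exp 160 ^ 2 * (Real.exp 160 * (s / (s ^ 2 + normSq p))) ^ 2 := by
          gcongr; exact hH p hp
      _ = _ := by field_simp
  have k6 := mul_le_mul_of_nonneg_right k5 (sq_nonneg h)
  simp only [D, Finset.sum_sub_distrib, Finset.sum_add_distrib, ← Finset.mul_sum] at k1 k3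
  simp only [D, H, P] at k6 ⊢
  linarith

include hv in
theorem grow {c : ℝ} (c0 : 0 ≤ c) (hK : ∀ z, 0 ≤ L v z ∧ L v z ≤ 2 * c * Real.exp (v z))
    (hc : ∀ R, IsCompact {z | dst (wt v) z 0 ≤ R}) :
    ∃ C > 0, ∀ z : ℂ, Real.log (1 + ‖z‖ ^ 2) ≤ C * dst (wt v) z 0 := by
  obtain ⟨B, B0, hB⟩ := low hv c0 hK hc
  have hw := wtc hv
  have h0 := wt0 (v := v)
  obtain ⟨M, hM⟩ := (isCompact_closedBall (0 : ℂ) 1).exists_bound_of_continuousOn
    (hw.inv₀ fun z => (h0 z).ne').continuousOn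
  have M0 : 0 ≤ M := (norm_nonneg _).trans (hM 0 (by simp))
  refine ⟨2 * B + M, by positivity, fun z => ?_⟩
  have := dlow hw (φ := fun z => Real.log (1 + ‖z‖ ^ 2))
    ((contDiff_const.add (contDiff_norm_sq ℝ)).log fun z => by positivity)
    (C := 2 * B + M) (by positivity) (fun y => ?_) 0 z
  · simpa [dcomm h0 0] using this
  rw [(((hasStrictFDerivAt_norm_sq y).hasFDerivAt.const_add 1).log (by positivity)).fderiv,
    norm_smul, two_smul, Real.norm_of_nonneg (by positivity), inv_mul_le_iff₀ (by positivity)]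
  refine (norm_add_le _ _).trans ?_
  rw [innerSL_apply_norm]
  have := h0 y
  have y0 := norm_nonneg y
  rcases le_total 1 ‖y‖ with h | h
  · nlinarith [mul_le_mul_of_nonneg_left (hB y h) y0, mul_pos B0 this,
      mul_nonneg (mul_nonneg M0 this.le) (show 0 ≤ 1 + ‖y‖ ^ 2 by positivity)]
  · have u := (inv_le_iff_one_le_mul₀ this).1
      ((le_abs_self _).trans (hM y (mem_closedBall_zero_iff.2 h)))
    nlinarith [mul_le_mul_of_nonneg_left u (show 0 ≤ 1 + ‖y‖ ^ 2 by positivity), sq_nonneg (‖y‖ - 1),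
      mul_nonneg (mul_pos B0 this).le (show 0 ≤ 1 + ‖y‖ ^ 2 by positivity)]

end Pool.Agent.H.MP_1759d0
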